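import Pool.Agent.W2helper1.WH.Stm

/-!
# Reduction of the Whittaker constant bound to the core statement
-/

namespace Pool.Agent.W2helper1.WH.Red

open Filter Topology

lemma norm_le_maxMod {f : ℂ → ℂ} (hf : Continuous f) {r : ℝ} {z : ℂ} (hz : ‖z‖ ≤ r) :
    ‖f z‖ ≤ maxMod f r := by
  apply le_csSup ((isCompact_closedBall (0 : ℂ) r).bddAbove_image hf.norm.continuousOn)
  exact ⟨z, by simpa using hz, rfl⟩

lemma factorial_le (n : ℕ) (hn : 1 ≤ n) :
    (n.factorial : ℝ) ≤ Real.exp 1 * n * ((n : ℝ) / Real.exp 1) ^ n := by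
  obtain ⟨m, rfl⟩ : ∃ m, n = m + 1 := ⟨n - 1, by omega⟩
  have h := Stirling.stirlingSeq'_antitone (Nat.zero_le m)
  simp only [Function.comp_apply] at h
  rw [show Nat.succ 0 = 1 from rfl, Stirling.stirlingSeq_one] at h
  unfold Stirling.stirlingSeq at h
  simp only [Nat.succ_eq_add_one] at h
  set x : ℝ := ((m + 1 : ℕ) : ℝ) with hx
  have hx1 : 1 ≤ x := by rw [hx]; exact_mod_cast Nat.le_add_left 1 m
  have hx0 : 0 < x := by linarith
  have he : 0 < Real.exp 1 := Real.exp_pos 1
  have hden : 0 < √(2 * x) * (x / Real.exp 1) ^ (m + 1) := by positivity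
  rw [div_le_iff₀ hden] at h
  refine h.trans ?_
  have h2 : √(2 * x) = √2 * √x := Real.sqrt_mul (by norm_num) x
  have h3 : √x ≤ x := by
    rw [Real.sqrt_le_left hx0.le]
    nlinarith
  have h4 : Real.exp 1 / √2 * (√(2 * x) * (x / Real.exp 1) ^ (m + 1))
      = Real.exp 1 * √x * (x / Real.exp 1) ^ (m + 1) := by
    rw [h2]
    have : √2 ≠ 0 := by positivity
    field_simp
  rw [h4]
  gcongr

lemma decay (f : ℂ → ℂ) (hf : Differentiable ℂ f) (s t : ℝ) (hs : 0 < s) (hst : s < t)
    (hM : ∀ᶠ r : ℝ in atTop, maxMod f r ≤ Real.exp (s * r)) :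
    Tendsto (fun n : ℕ => ‖iteratedDeriv n f 0‖ / t ^ n) atTop (𝓝 0) := by
  have ht : 0 < t := hs.trans hst
  have hr : |s / t| < 1 := by
    rw [abs_of_pos (div_pos hs ht), div_lt_one ht]
    exact hst
  have h1 := (tendsto_pow_const_mul_const_pow_of_abs_lt_one 1 hr).const_mul (Real.exp 1)
  rw [mul_zero] at h1
  have h2 : Tendsto (fun n : ℕ => (n : ℝ) / s) atTop atTop :=
    tendsto_natCast_atTop_atTop.atTop_div_const hs
  refine squeeze_zero' (Eventually.of_forall fun n => by positivity) ?_ h1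
  filter_upwards [h2.eventually hM, eventually_ge_atTop 1] with n hn hn1
  have hn0 : (0 : ℝ) < n := by exact_mod_cast hn1
  have hR : 0 < (n : ℝ) / s := div_pos hn0 hs
  have h3 : ‖iteratedDeriv n f 0‖ ≤ n.factorial * Real.exp (s * (n / s)) / ((n : ℝ) / s) ^ n := by
    apply Complex.norm_iteratedDeriv_le_of_forall_mem_sphere_norm_le n hR hf.diffContOnCl
    intro z hz
    refine (norm_le_maxMod hf.continuous ?_).trans hn
    have := mem_sphere_zero_iff_norm.1 hz
    exact this.le
  have h4 : s * (n / s) = (n : ℝ) * 1 := by field_simp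
  rw [h4, Real.exp_nat_mul] at h3
  have he : 0 < Real.exp 1 := Real.exp_pos 1
  have h5 : (n.factorial : ℝ) * Real.exp 1 ^ n / ((n : ℝ) / s) ^ n ≤ Real.exp 1 * n * s ^ n := by
    rw [div_le_iff₀ (by positivity)]
    calc (n.factorial : ℝ) * Real.exp 1 ^ n
        ≤ (Real.exp 1 * n * ((n : ℝ) / Real.exp 1) ^ n) * Real.exp 1 ^ n := by
          gcongr; exact factorial_le n hn1
      _ = Real.exp 1 * n * s ^ n * ((n : ℝ) / s) ^ n := by
          rw [div_pow, div_pow]
          field_simp
  rw [div_le_iff₀ (by positivity)]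
  refine (h3.trans h5).trans (le_of_eq ?_)
  rw [div_pow]
  field_simp

lemma iter_add (f : ℂ → ℂ) (m n : ℕ) :
    iteratedDeriv n (iteratedDeriv m f) = iteratedDeriv (m + n) f := by
  rw [iteratedDeriv_eq_iterate, iteratedDeriv_eq_iterate, iteratedDeriv_eq_iterate, add_comm m n,
    Function.iterate_add_apply]

theorem s_red : S_RED := by
  intro hcore
  unfold W
  apply le_sSup
  intro f hf hg
  obtain ⟨hd, hz⟩ := hf
  -- growth rate
  obtain ⟨s, hs0, hs1, hM⟩ : ∃ s : ℝ, 0 < s ∧ s < 0.736 ∧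
      ∀ᶠ r : ℝ in atTop, maxMod f r ≤ Real.exp (s * r) := by
    have h0 : max (growth f) ((0.1 : ℝ) : EReal) < ((0.736 : ℝ) : EReal) :=
      max_lt hg (by exact_mod_cast (by norm_num : (0.1 : ℝ) < 0.736))
    obtain ⟨s, hs, hs'⟩ := EReal.exists_between_coe_real h0
    have hs2 : (0.1 : ℝ) < s := by exact_mod_cast (le_max_right _ _).trans_lt hs
    have hs3 : s < 0.736 := by exact_mod_cast hs'
    refine ⟨s, by linarith, hs3, ?_⟩
    have h1 : growth f < (s : EReal) := (le_max_left _ _).trans_lt hs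
    have h2 := eventually_lt_of_limsup_lt (h := h1)
    filter_upwards [h2, eventually_gt_atTop 0] with r hr hr0
    have h3 : Real.log (maxMod f r) / r < s := by exact_mod_cast hr
    rw [div_lt_iff₀ hr0] at h3
    rcases le_or_gt (maxMod f r) 0 with h4 | h4
    · exact h4.trans (Real.exp_pos _).le
    · exact ((Real.log_lt_iff_lt_exp h4).1 h3).le
  have htau : ((tau : ℚ) : ℝ) = 0.736 := by norm_num [tau]
  have hdec := decay f hd s 0.736 hs0 hs1 hM
  set b : ℕ → ℝ := fun n => ‖iteratedDeriv n f 0‖ / 0.736 ^ n with hb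
  by_contra hf0
  -- some derivative at 0 does not vanish
  obtain ⟨n0, hn0⟩ : ∃ n0, 0 < b n0 := by
    by_contra hcon
    push Not at hcon
    apply hf0
    funext x
    have h1 := Complex.hasSum_taylorSeries_of_entire hd 0 x
    have h2 : ∀ n, iteratedDeriv n f 0 = 0 := by
      intro n
      have h3 := hcon n
      rw [hb] at h3
      simp only at h3
      have h4 : ‖iteratedDeriv n f 0‖ ≤ 0 := by
        by_contra h5
        push Not at h5
        have : 0 < ‖iteratedDeriv n f 0‖ / (0.736 : ℝ) ^ n := by positivity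
        linarith
      exact norm_le_zero_iff.1 h4
    simp only [h2, smul_zero] at h1
    exact h1.unique hasSum_zero
  obtain ⟨N, hN⟩ : ∃ N, ∀ n, b n ≤ b N := by
    have hc : Continuous b := continuous_of_discreteTopology
    apply hc.exists_forall_ge' n0
    rw [cocompact_eq_cofinite, Nat.cofinite_eq_atTop]
    exact (hdec.eventually (gt_mem_nhds hn0)).mono fun n hn => hn.le
  choose z hz1 hz2 using hz
  have htc : ((tau : ℚ) : ℂ) ≠ 0 := by norm_num [tau]
  set A : ℕ → ℂ := fun k => iteratedDeriv (N + k) f 0 / ((tau : ℚ) : ℂ) ^ (N + k) with hA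
  have hAb : ∀ k, ‖A k‖ = b (N + k) := by
    intro k
    have : ‖((tau : ℚ) : ℂ)‖ = 0.736 := by
      rw [Complex.norm_ratCast, htau]
      norm_num
    simp only [hA, hb, norm_div, norm_pow, this]
  have key := hcore A (fun j => z (N + j)) (fun k => by rw [hAb, hAb]; exact hN _)
    (fun j => hz1 _) ?_
  · have h0 : b N = 0 := by
      have := hAb 0
      rw [key, norm_zero] at this
      simpa using this.symm
    have := hN n0
    linarith
  · intro j
    have hdj : Differentiable ℂ (iteratedDeriv (N + j) f) :=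
      (hd.contDiff (n := ⊤)).differentiable_iteratedDeriv (N + j) (by simp)
    have h1 := Complex.hasSum_taylorSeries_of_entire hdj 0 (z (N + j))
    rw [hz2] at h1
    have h2 := h1.mul_left ((((tau : ℚ) : ℂ) ^ (N + j))⁻¹)
    rw [mul_zero] at h2
    have h4 : (fun k : ℕ => ((c k : ℚ) : ℂ) * z (N + j) ^ k * A (j + k)) = fun i : ℕ =>
        ((((tau : ℚ) : ℂ) ^ (N + j))⁻¹) * ((i.factorial : ℂ)⁻¹ • (z (N + j) - 0) ^ i •
          iteratedDeriv i (iteratedDeriv (N + j) f) 0) := ?_
    · rw [h4]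
      exact h2
    funext n
    rw [iter_add]
    simp only [hA, smul_eq_mul, sub_zero, c]
    rw [show N + (j + n) = N + j + n by ring, pow_add _ (N + j) n]
    have h3 : ((n.factorial : ℕ) : ℂ) ≠ 0 := by exact_mod_cast n.factorial_ne_zero
    push_cast
    field_simp

end Pool.Agent.W2helper1.WH.Red
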