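import Pool.Agent.W2helper1.WH.S5
import Pool.Agent.W2helper1.WH.Cert.All
namespace Pool.Agent.W2helper1.WH
open Complex

lemma sumN_le (u v w : ℂ) (hu : ‖u‖ = 1) (hv : ‖v‖ = 1) (hw : ‖w‖ = 1) (hi : 0 ≤ u.im) :
    sumN u v w polys ≤ 9997 / 10000 := by
  obtain ⟨a, ha, hua⟩ := cover_upper u hu hi
  obtain ⟨b, hb, hvb⟩ := cover v hv
  obtain ⟨e, he, hwe⟩ := cover w hw
  obtain ⟨T, hT⟩ := Cert.cov_all a ha b hb e he
  exact check_spec T _ _ _ le_rfl le_rfl le_rfl hT u v w hua hvb hwe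

lemma sumN_eq (u v w : ℂ) : sumN u v w polys =
    ‖P2 u‖ + ‖P3 u v‖ + ‖PP 0 u v w‖ + ‖PP 1 u v w‖ + ‖PP 2 u v w‖ + ‖PP 3 u v w‖ := by
  have h0 : ev u v w (polys.getD 0 []) = P2 u := by
    simp only [polys, List.getD_cons_zero, ev, mon, P2]
    norm_num [c, tau, p0, p1, mu, Nat.factorial, D0]
  have h1 : ev u v w (polys.getD 1 []) = P3 u v := by
    simp only [polys, List.getD_cons_succ, List.getD_cons_zero, ev, mon, P3]
    norm_num [c, tau, p0, p1, mu, Nat.factorial, D0]
    ring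
  have h2 : ev u v w (polys.getD 2 []) = PP 0 u v w := by
    simp only [polys, List.getD_cons_succ, List.getD_cons_zero, ev, mon, PP]
    norm_num [c, tau, p0, p1, mu, Nat.factorial, D0]
    ring
  have h3 : ev u v w (polys.getD 3 []) = PP 1 u v w := by
    simp only [polys, List.getD_cons_succ, List.getD_cons_zero, ev, mon, PP]
    norm_num [c, tau, p0, p1, mu, Nat.factorial, D0]
    ring
  have h4 : ev u v w (polys.getD 4 []) = PP 2 u v w := by
    simp only [polys, List.getD_cons_succ, List.getD_cons_zero, ev, mon, PP]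
    norm_num [c, tau, p0, p1, mu, Nat.factorial, D0]
    ring
  have h5 : ev u v w (polys.getD 5 []) = PP 3 u v w := by
    simp only [polys, List.getD_cons_succ, List.getD_cons_zero, ev, mon, PP]
    norm_num [c, tau, p0, p1, mu, Nat.factorial, D0]
    ring
  rw [← h0, ← h1, ← h2, ← h3, ← h4, ← h5]
  simp only [polys, List.getD_cons_succ, List.getD_cons_zero, sumN]
  ring

lemma norm_P2_conj (u : ℂ) : ‖P2 (starRingEnd ℂ u)‖ = ‖P2 u‖ := by
  rw [← Complex.norm_conj (P2 u)]
  congr 1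
  simp only [P2, map_add, map_mul, map_ratCast]

lemma norm_P3_conj (u v : ℂ) : ‖P3 (starRingEnd ℂ u) (starRingEnd ℂ v)‖ = ‖P3 u v‖ := by
  rw [← Complex.norm_conj (P3 u v)]
  congr 1
  simp only [P3, map_add, map_sub, map_mul, map_pow, map_ratCast]

lemma norm_PP_conj (k : ℕ) (u v w : ℂ) :
    ‖PP k (starRingEnd ℂ u) (starRingEnd ℂ v) (starRingEnd ℂ w)‖ = ‖PP k u v w‖ := by
  rw [← Complex.norm_conj (PP k u v w)]
  congr 1
  simp only [PP, map_add, map_sub, map_mul, map_pow, map_ratCast, map_neg, map_one]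

theorem torus : TorusIneq := by
  intro u v w hu hv hw
  rcases le_total 0 u.im with hi | hi
  · rw [← sumN_eq]
    exact sumN_le u v w hu hv hw hi
  · have h := sumN_le (starRingEnd ℂ u) (starRingEnd ℂ v) (starRingEnd ℂ w)
      (by rw [Complex.norm_conj, hu]) (by rw [Complex.norm_conj, hv])
      (by rw [Complex.norm_conj, hw]) (by rw [Complex.conj_im]; linarith)
    rw [sumN_eq, norm_P2_conj, norm_P3_conj, norm_PP_conj, norm_PP_conj, norm_PP_conj,
      norm_PP_conj] at h
    exact h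

end Pool.Agent.W2helper1.WH
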