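
/-!
# The checker of the certificate (integers only)
-/

namespace Pool.Agent.W2helper1.WH


/-- Gaussian integers -/
structure GI where
  re : Int
  im : Int

namespace GI
def mul (x y : GI) : GI := ⟨x.re * y.re - x.im * y.im, x.re * y.im + x.im * y.re⟩
def add (x y : GI) : GI := ⟨x.re + y.re, x.im + y.im⟩
def smul (c : Int) (x : GI) : GI := ⟨c * x.re, c * x.im⟩
end GI

/-- monomial `c / D0 * u ^ a * v ^ b * w ^ e` -/
structure Mono where
  c : Int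
  a : Nat
  b : Nat
  e : Nat

def D0 : Nat := 2403259277343750000

def polys : List (List Mono) :=
  [[⟨397374114990234375, 0, 0, 0⟩, ⟨-706548614501953125, 1, 0, 0⟩],
   [⟨159691875000000000, 0, 0, 0⟩, ⟨-479075625000000000, 2, 0, 0⟩, ⟨-88314971923828125, 0, 1, 0⟩, ⟨339838165283203125, 1, 1, 0⟩],
   [⟨29383305000000000, 0, 0, 0⟩, ⟨-117533220000000000, 3, 0, 0⟩, ⟨-68671845703125000, 0, 2, 0⟩, ⟨161232380859375000, 1, 2, 0⟩, ⟨72343872070312500, 0, 1, 1⟩, ⟨-72343872070312500, 1, 1, 1⟩],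
   [⟨4325222496000000, 0, 0, 0⟩, ⟨-21626112480000000, 4, 0, 0⟩, ⟨-16847492812500000, 0, 3, 0⟩, ⟨39555677437500000, 1, 3, 0⟩, ⟨26622544921875000, 0, 1, 2⟩, ⟨-26622544921875000, 1, 1, 2⟩],
   [⟨530560626176000, 0, 0, 0⟩, ⟨-3183363757056000, 5, 0, 0⟩, ⟨-3099938677500000, 0, 4, 0⟩, ⟨7278244648500000, 1, 4, 0⟩, ⟨6531397687500000, 0, 1, 3⟩, ⟨-6531397687500000, 1, 1, 3⟩],
   [⟨55784660123648, 0, 0, 0⟩, ⟨-390492620865536, 6, 0, 0⟩, ⟨-456310973328000, 0, 5, 0⟩, ⟨1071357612259200, 1, 5, 0⟩, ⟨1201777174500000, 0, 1, 4⟩, ⟨-1201777174500000, 1, 1, 4⟩]]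

/-- scale of the fixed point numbers -/
def Q : Nat := 16777216

/-- an arc: `I ^ q * circ t`, `|t - m / 2 ^ l| ≤ 1 / 2 ^ l` -/
structure Arc where
  q : Nat
  m : Nat
  l : Nat

namespace Arc
/-- denominator of the centre -/
def den (x : Arc) : Nat := (2 ^ x.l) ^ 2 + x.m ^ 2

/-- numerator of the centre -/
def num (x : Arc) : GI :=
  match x.q with
  | 0 => ⟨((2 ^ x.l) ^ 2 : Nat) - ((x.m ^ 2 : Nat) : Int), (2 * x.m * 2 ^ x.l : Nat)⟩
  | 1 => ⟨-(2 * x.m * 2 ^ x.l : Nat), ((2 ^ x.l) ^ 2 : Nat) - ((x.m ^ 2 : Nat) : Int)⟩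
  | 2 => ⟨-(((2 ^ x.l) ^ 2 : Nat) - ((x.m ^ 2 : Nat) : Int)), -(2 * x.m * 2 ^ x.l : Nat)⟩
  | _ => ⟨(2 * x.m * 2 ^ x.l : Nat), -(((2 ^ x.l) ^ 2 : Nat) - ((x.m ^ 2 : Nat) : Int))⟩

/-- half width of the angle, times `Q`, rounded up -/
def hw (x : Arc) : Nat := (2 * 2 ^ x.l * Q) / ((2 ^ x.l) ^ 2 + (x.m - 1) ^ 2) + 1

def left (x : Arc) : Arc := ⟨x.q, 2 * x.m - 1, x.l + 1⟩
def right (x : Arc) : Arc := ⟨x.q, 2 * x.m + 1, x.l + 1⟩
end Arc

/-- `[cur, g * cur, ..., g ^ n * cur]` -/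
def pows (g : GI) : Nat → GI → List GI
  | 0, cur => [cur]
  | n + 1, cur => cur :: pows g n (GI.mul g cur)

/-- sums for one polynomial -/
structure Sums where
  x : GI
  xu : GI
  xv : GI
  xw : GI
  y : Nat
  r : Nat

def zeroGI : GI := ⟨0, 0⟩

/-- centre data -/
structure Ctr where
  pu : List GI
  pv : List GI
  pw : List GI
  du : Nat
  dv : Nat
  dw : Nat
  hu : Nat
  hv : Nat
  hw : Nat

def evalPoly (C : Ctr) : List Mono → Sums
  | [] => ⟨zeroGI, zeroGI, zeroGI, zeroGI, 0, 0⟩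
  | m :: L =>
    let s := evalPoly C L
    let g := GI.smul (m.c * ((C.du ^ (6 - m.a) * C.dv ^ (5 - m.b) * C.dw ^ (4 - m.e) : Nat) : Int))
      (GI.mul (C.pu.getD m.a zeroGI) (GI.mul (C.pv.getD m.b zeroGI) (C.pw.getD m.e zeroGI)))
    let t := m.a * C.hu + m.b * C.hv + m.e * C.hw
    ⟨GI.add g s.x, GI.add (GI.smul m.a g) s.xu, GI.add (GI.smul m.b g) s.xv,
      GI.add (GI.smul m.e g) s.xw, m.c.natAbs * t + s.y, m.c.natAbs * t ^ 2 + s.r⟩

/-- Newton iteration for the square root (no correctness needed) -/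
def newton (n : Nat) : Nat → Nat → Nat
  | 0, x => x
  | k + 1, x => newton n k ((x + n / x) / 2)

/-- result of one polynomial: bound, gradient -/
structure Res where
  ok : Bool
  t : Nat
  gu : Int
  gv : Int
  gw : Int

def polyRes (DD : Nat) (s : Sums) : Res :=
  let N := s.x.re.natAbs ^ 2 + s.x.im.natAbs ^ 2
  let n := N * Q ^ 2 / DD ^ 2
  let r := newton n 4 (2 ^ (n.log2 / 2 + 1)) + 1
  let y := s.y / D0 + 1
  if N * Q ^ 2 ≤ r ^ 2 * DD ^ 2 then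
    if y * 5 ≤ r * 6 then
      ⟨true, r + s.r / (2 * D0 * Q) + 1 + y ^ 2 / (2 * r) + 1,
        (s.x.re * s.xu.im - s.x.im * s.xu.re) * (Q ^ 2 : Nat) / ((r * DD ^ 2 : Nat) : Int),
        (s.x.re * s.xv.im - s.x.im * s.xv.re) * (Q ^ 2 : Nat) / ((r * DD ^ 2 : Nat) : Int),
        (s.x.re * s.xw.im - s.x.im * s.xw.re) * (Q ^ 2 : Nat) / ((r * DD ^ 2 : Nat) : Int)⟩
    else ⟨true, r + y, 0, 0, 0⟩
  else ⟨false, 0, 0, 0, 0⟩

/-- accumulate over the polynomials -/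
def accum (C : Ctr) (DD : Nat) : List (List Mono) → Res
  | [] => ⟨true, 0, 0, 0, 0⟩
  | L :: LL =>
    let a := accum C DD LL
    let b := polyRes DD (evalPoly C L)
    ⟨a.ok && b.ok, a.t + b.t, a.gu + b.gu, a.gv + b.gv, a.gw + b.gw⟩

def ctr (x y z : Arc) : Ctr :=
  ⟨pows x.num 6 ⟨1, 0⟩, pows y.num 5 ⟨1, 0⟩, pows z.num 4 ⟨1, 0⟩, x.den, y.den, z.den,
    x.hw, y.hw, z.hw⟩

/-- test of a cell -/
def cellTest (x y z : Arc) : Bool :=
  let C := ctr x y z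
  let a := accum C (D0 * x.den ^ 6 * y.den ^ 5 * z.den ^ 4) polys
  a.ok && decide (a.t + ((a.gu.natAbs + 6) * C.hu + (a.gv.natAbs + 6) * C.hv
    + (a.gw.natAbs + 6) * C.hw) / Q + 1 ≤ 9997 * Q / 10000)

/-- recursive subdivision -/
def rec3 : Nat → Arc → Arc → Arc → Bool
  | 0, _, _, _ => false
  | n + 1, x, y, z =>
    if cellTest x y z then true
    else if 5 * x.hw ≥ 4 * y.hw ∧ 2 * x.hw ≥ z.hw then
      rec3 n x.left y z && rec3 n x.right y z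
    else if 5 * y.hw ≥ 3 * z.hw then
      rec3 n x y.left z && rec3 n x y.right z
    else
      rec3 n x y z.left && rec3 n x y z.right

end Pool.Agent.W2helper1.WH
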