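import Pool.Agent.W2helper1.WH.Chk

namespace Pool.Agent.W2helper1.WH

/-- subdivision tree: leaf, or bisection of the first, second, third arc -/
inductive Tree where
  | L : Tree
  | U : Tree → Tree → Tree
  | V : Tree → Tree → Tree
  | W : Tree → Tree → Tree

/-- check of the tree -/
def check : Tree → Arc → Arc → Arc → Bool
  | .L, x, y, z => cellTest x y z
  | .U a b, x, y, z => check a x.left y z && check b x.right y z
  | .V a b, x, y, z => check a x y.left z && check b x y.right z
  | .W a b, x, y, z => check a x y z.left && check b x y z.right

/-- the cell is covered by a successful check -/
def Cov (x y z : Arc) : Prop := ∃ T, check T x y z = true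

end Pool.Agent.W2helper1.WH
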