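import Mathlib
import Pool.Agent.W2helper1.WH.Tree
namespace Pool.Agent.W2helper1.WH
open Complex

lemma exp1 (x : ℝ) : ‖exp (I * x) - 1‖ ≤ |x| := by
  have := @Complex.norm_exp_I_mul_ofReal_sub_one x
  rw [this]
  rw [norm_mul, Real.norm_eq_abs, Real.norm_eq_abs]
  have h := Real.abs_sin_le_abs (x := x / 2)
  have h2 : |x / 2| = |x| / 2 := by rw [abs_div]; norm_num
  rw [h2] at h
  have h3 : |(2 : ℝ)| = 2 := by norm_num
  rw [h3]; linarith

lemma exp2_nonneg (x : ℝ) (hx : 0 ≤ x) : ‖exp (I * x) - 1 - I * x‖ ≤ x ^ 2 / 2 := by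
  have key := image_norm_le_of_norm_deriv_right_le_deriv_boundary
    (f := fun t : ℝ => exp (I * t) - 1 - I * t) (f' := fun t : ℝ => I * exp (I * t) - I)
    (a := 0) (b := x) (B := fun t => t ^ 2 / 2) (B' := fun t => t)
    (by fun_prop)
    (by
      intro t _
      have h1 : HasDerivAt (fun t : ℝ => exp (I * (t : ℂ)) - 1 - I * t) (I * exp (I * t) - I) t := by
        have h0 : HasDerivAt (fun t : ℝ => I * (t : ℂ)) I t := by
          simpa using (Complex.ofRealCLM.hasDerivAt (x := t)).const_mul I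
        have := (h0.cexp.sub_const 1).sub h0
        rw [mul_comm (cexp (I * (t : ℂ))) I] at this
        exact this
      exact h1.hasDerivWithinAt)
    (by simp)
    (by
      intro t
      have h := (hasDerivAt_pow 2 t).div_const 2
      have e : ((2 : ℕ) : ℝ) * t ^ (2 - 1) / 2 = t := by norm_num
      rw [e] at h
      exact h)
    (by
      intro t ht
      have h : I * exp (I * t) - I = I * (exp (I * t) - 1) := by ring
      simp only [h, norm_mul, norm_I, one_mul]
      have := exp1 t
      rwa [abs_of_nonneg ht.1] at this)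
  exact key (Set.right_mem_Icc.mpr hx)

lemma exp2 (x : ℝ) : ‖exp (I * x) - 1 - I * x‖ ≤ x ^ 2 / 2 := by
  rcases le_total 0 x with h | h
  · exact exp2_nonneg x h
  · have h1 := exp2_nonneg (-x) (by linarith)
    have h2 : exp (I * ((-x : ℝ) : ℂ)) - 1 - I * ((-x : ℝ) : ℂ)
        = (starRingEnd ℂ) (exp (I * x) - 1 - I * x) := by
      simp only [map_sub, map_one, map_mul, conj_I, conj_ofReal, ← Complex.exp_conj, ofReal_neg]
      ring_nf
    rw [h2, Complex.norm_conj] at h1
    simpa using h1

noncomputable def toC (g : GI) : ℂ := (g.re : ℂ) + (g.im : ℂ) * I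

lemma toC_mul (x y : GI) : toC (GI.mul x y) = toC x * toC y := by
  simp only [toC, GI.mul]
  push_cast
  linear_combination (-(x.im : ℂ) * y.im) * I_sq

lemma toC_add (x y : GI) : toC (GI.add x y) = toC x + toC y := by
  simp only [toC, GI.add]; push_cast; ring

lemma toC_smul (c : ℤ) (x : GI) : toC (GI.smul c x) = c * toC x := by
  simp only [toC, GI.smul]; push_cast; ring

lemma toC_zero : toC zeroGI = 0 := by simp [toC, zeroGI]

lemma toC_re (g : GI) : (toC g).re = g.re := by simp [toC]
lemma toC_im (g : GI) : (toC g).im = g.im := by simp [toC]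

/-- one monomial -/
noncomputable def mon (m : Mono) (u v w : ℂ) : ℂ :=
  ((m.c : ℂ) / (D0 : ℂ)) * (u ^ m.a * v ^ m.b * w ^ m.e)

/-- weighted sum of the monomials -/
noncomputable def evk (k : Mono → ℝ) (u v w : ℂ) : List Mono → ℂ
  | [] => 0
  | m :: L => (k m : ℂ) * mon m u v w + evk k u v w L

/-- the polynomial -/
noncomputable def ev (u v w : ℂ) : List Mono → ℂ
  | [] => 0
  | m :: L => mon m u v w + ev u v w L

/-- phase -/
noncomputable def psi (fu fv fw : ℝ) (m : Mono) : ℝ := m.a * fu + m.b * fv + m.e * fw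

lemma mon_rot (m : Mono) (u v w : ℂ) (fu fv fw : ℝ) :
    mon m (u * exp (I * fu)) (v * exp (I * fv)) (w * exp (I * fw))
      = mon m u v w * exp (I * (psi fu fv fw m : ℝ)) := by
  have h : exp (I * (psi fu fv fw m : ℝ))
      = exp (I * fu) ^ m.a * exp (I * fv) ^ m.b * exp (I * fw) ^ m.e := by
    rw [← Complex.exp_nat_mul, ← Complex.exp_nat_mul, ← Complex.exp_nat_mul, ← Complex.exp_add,
      ← Complex.exp_add]
    congr 1
    simp only [psi]
    push_cast
    ring
  rw [h]
  simp only [mon, mul_pow]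
  ring

lemma norm_mon (m : Mono) (u v w : ℂ) (hu : ‖u‖ = 1) (hv : ‖v‖ = 1) (hw : ‖w‖ = 1) :
    ‖mon m u v w‖ = (m.c.natAbs : ℝ) / D0 := by
  simp only [mon, norm_mul, norm_div, norm_pow, hu, hv, hw, one_pow, mul_one]
  rw [Complex.norm_natCast, Complex.norm_intCast, Nat.cast_natAbs, Int.cast_abs]

/-- the two error sums -/
noncomputable def S1 (k : Mono → ℝ) : List Mono → ℝ
  | [] => 0
  | m :: L => (m.c.natAbs : ℝ) / D0 * k m + S1 k L

lemma ev_sub (L : List Mono) (u v w : ℂ) (hu : ‖u‖ = 1) (hv : ‖v‖ = 1) (hw : ‖w‖ = 1)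
    (fu fv fw : ℝ) :
    ‖ev (u * exp (I * fu)) (v * exp (I * fv)) (w * exp (I * fw)) L - ev u v w L‖
      ≤ S1 (fun m => |psi fu fv fw m|) L := by
  induction L with
  | nil => simp [ev, S1]
  | cons m L ih =>
    simp only [ev, S1]
    rw [mon_rot]
    have h1 : mon m u v w * exp (I * (psi fu fv fw m : ℝ)) +
        ev (u * exp (I * fu)) (v * exp (I * fv)) (w * exp (I * fw)) L
        - (mon m u v w + ev u v w L)
        = mon m u v w * (exp (I * (psi fu fv fw m : ℝ)) - 1)
          + (ev (u * exp (I * fu)) (v * exp (I * fv)) (w * exp (I * fw)) L - ev u v w L) := by ring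
    rw [h1]
    refine (norm_add_le _ _).trans (add_le_add ?_ ih)
    rw [norm_mul, norm_mon m u v w hu hv hw]
    exact mul_le_mul_of_nonneg_left (exp1 _) (by positivity)

lemma ev_sub2 (L : List Mono) (u v w : ℂ) (hu : ‖u‖ = 1) (hv : ‖v‖ = 1) (hw : ‖w‖ = 1)
    (fu fv fw : ℝ) :
    ‖ev (u * exp (I * fu)) (v * exp (I * fv)) (w * exp (I * fw)) L - ev u v w L
      - I * evk (psi fu fv fw) u v w L‖
      ≤ S1 (fun m => (psi fu fv fw m) ^ 2 / 2) L := by
  induction L with
  | nil => simp [ev, evk, S1]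
  | cons m L ih =>
    simp only [ev, evk, S1]
    rw [mon_rot]
    have h1 : mon m u v w * exp (I * (psi fu fv fw m : ℝ)) +
        ev (u * exp (I * fu)) (v * exp (I * fv)) (w * exp (I * fw)) L
        - (mon m u v w + ev u v w L)
        - I * ((psi fu fv fw m : ℂ) * mon m u v w + evk (psi fu fv fw) u v w L)
        = mon m u v w * (exp (I * (psi fu fv fw m : ℝ)) - 1 - I * (psi fu fv fw m : ℝ))
          + (ev (u * exp (I * fu)) (v * exp (I * fv)) (w * exp (I * fw)) L - ev u v w L
            - I * evk (psi fu fv fw) u v w L) := by ring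
    rw [h1]
    refine (norm_add_le _ _).trans (add_le_add ?_ ih)
    rw [norm_mul, norm_mon m u v w hu hv hw]
    exact mul_le_mul_of_nonneg_left (exp2 _) (by positivity)

lemma evk_psi (L : List Mono) (u v w : ℂ) (fu fv fw : ℝ) :
    evk (psi fu fv fw) u v w L = fu * evk (fun m => m.a) u v w L + fv * evk (fun m => m.b) u v w L
      + fw * evk (fun m => m.e) u v w L := by
  induction L with
  | nil => simp [evk]
  | cons m L ih =>
    simp only [evk, ih, psi]
    push_cast
    ring

end Pool.Agent.W2helper1.WH
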