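import Pool.Agent.W2helper1.WH.S1
namespace Pool.Agent.W2helper1.WH
open Complex

/-- the centre data describe the points `u, v, w` -/
structure Good (C : Ctr) (u v w : ℂ) : Prop where
  pu : ∀ a ≤ 6, toC (C.pu.getD a zeroGI) = (u * C.du) ^ a
  pv : ∀ b ≤ 5, toC (C.pv.getD b zeroGI) = (v * C.dv) ^ b
  pw : ∀ e ≤ 4, toC (C.pw.getD e zeroGI) = (w * C.dw) ^ e

/-- admissible exponents -/
def Adm (L : List Mono) : Prop := ∀ m ∈ L, m.a ≤ 6 ∧ m.b ≤ 5 ∧ m.e ≤ 4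

lemma D0_ne : ((D0 : ℕ) : ℂ) ≠ 0 := by norm_num [D0]
lemma D0_pos : (0 : ℝ) < ((D0 : ℕ) : ℝ) := by norm_num [D0]
lemma Q_pos : (0 : ℝ) < ((Q : ℕ) : ℝ) := by norm_num [Q]

lemma term_spec {C : Ctr} {u v w : ℂ} (G : Good C u v w) (m : Mono) (ha : m.a ≤ 6) (hb : m.b ≤ 5)
    (he : m.e ≤ 4) :
    toC (GI.smul (m.c * ((C.du ^ (6 - m.a) * C.dv ^ (5 - m.b) * C.dw ^ (4 - m.e) : ℕ) : ℤ))
      (GI.mul (C.pu.getD m.a zeroGI) (GI.mul (C.pv.getD m.b zeroGI) (C.pw.getD m.e zeroGI))))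
      = ((D0 * C.du ^ 6 * C.dv ^ 5 * C.dw ^ 4 : ℕ) : ℂ) * mon m u v w := by
  rw [toC_smul, toC_mul, toC_mul, G.pu _ ha, G.pv _ hb, G.pw _ he]
  simp only [mon]
  have e1 : (C.du : ℂ) ^ 6 = (C.du : ℂ) ^ (6 - m.a) * (C.du : ℂ) ^ m.a := by
    rw [← pow_add]; congr 1; omega
  have e2 : (C.dv : ℂ) ^ 5 = (C.dv : ℂ) ^ (5 - m.b) * (C.dv : ℂ) ^ m.b := by
    rw [← pow_add]; congr 1; omega
  have e3 : (C.dw : ℂ) ^ 4 = (C.dw : ℂ) ^ (4 - m.e) * (C.dw : ℂ) ^ m.e := by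
    rw [← pow_add]; congr 1; omega
  push_cast
  rw [e1, e2, e3, mul_pow, mul_pow, mul_pow]
  have := D0_ne
  field_simp

lemma evalPoly_spec {C : Ctr} {u v w : ℂ} (G : Good C u v w) (L : List Mono) (hL : Adm L) :
    toC (evalPoly C L).x = ((D0 * C.du ^ 6 * C.dv ^ 5 * C.dw ^ 4 : ℕ) : ℂ) * ev u v w L ∧
    toC (evalPoly C L).xu
      = ((D0 * C.du ^ 6 * C.dv ^ 5 * C.dw ^ 4 : ℕ) : ℂ) * evk (fun m => m.a) u v w L ∧
    toC (evalPoly C L).xv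
      = ((D0 * C.du ^ 6 * C.dv ^ 5 * C.dw ^ 4 : ℕ) : ℂ) * evk (fun m => m.b) u v w L ∧
    toC (evalPoly C L).xw
      = ((D0 * C.du ^ 6 * C.dv ^ 5 * C.dw ^ 4 : ℕ) : ℂ) * evk (fun m => m.e) u v w L := by
  induction L with
  | nil => simp [evalPoly, ev, evk, toC_zero]
  | cons m L ih =>
    have hm := hL m (by simp)
    obtain ⟨h1, h2, h3, h4⟩ := ih (fun m' hm' => hL m' (by simp [hm']))
    have ht := term_spec G m hm.1 hm.2.1 hm.2.2
    simp only [evalPoly, ev, evk]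
    refine ⟨?_, ?_, ?_, ?_⟩
    · rw [toC_add, ht, h1]; ring
    · rw [toC_add, toC_smul, ht, h2]; push_cast; ring
    · rw [toC_add, toC_smul, ht, h3]; push_cast; ring
    · rw [toC_add, toC_smul, ht, h4]; push_cast; ring

lemma psi_le (C : Ctr) (fu fv fw : ℝ) (hu : |fu| ≤ C.hu / Q) (hv : |fv| ≤ C.hv / Q)
    (hw : |fw| ≤ C.hw / Q) (m : Mono) :
    |psi fu fv fw m| ≤ ((m.a * C.hu + m.b * C.hv + m.e * C.hw : ℕ) : ℝ) / Q := by
  simp only [psi]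
  have h1 : |(m.a : ℝ) * fu| ≤ m.a * (C.hu / Q) := by
    rw [abs_mul, Nat.abs_cast]; exact mul_le_mul_of_nonneg_left hu (by positivity)
  have h2 : |(m.b : ℝ) * fv| ≤ m.b * (C.hv / Q) := by
    rw [abs_mul, Nat.abs_cast]; exact mul_le_mul_of_nonneg_left hv (by positivity)
  have h3 : |(m.e : ℝ) * fw| ≤ m.e * (C.hw / Q) := by
    rw [abs_mul, Nat.abs_cast]; exact mul_le_mul_of_nonneg_left hw (by positivity)
  calc |(m.a : ℝ) * fu + m.b * fv + m.e * fw|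
      ≤ |(m.a : ℝ) * fu| + |(m.b : ℝ) * fv| + |(m.e : ℝ) * fw| := abs_add_three _ _ _
    _ ≤ m.a * (C.hu / Q) + m.b * (C.hv / Q) + m.e * (C.hw / Q) := by linarith
    _ = _ := by push_cast; ring

lemma y_spec (C : Ctr) (fu fv fw : ℝ) (hu : |fu| ≤ C.hu / Q) (hv : |fv| ≤ C.hv / Q)
    (hw : |fw| ≤ C.hw / Q) (L : List Mono) :
    S1 (fun m => |psi fu fv fw m|) L ≤ ((evalPoly C L).y : ℝ) / (D0 * Q) := by
  induction L with
  | nil => simp [S1, evalPoly]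
  | cons m L ih =>
    simp only [S1, evalPoly]
    have h := psi_le C fu fv fw hu hv hw m
    have h1 : (m.c.natAbs : ℝ) / D0 * |psi fu fv fw m|
        ≤ (m.c.natAbs : ℝ) / D0 * (((m.a * C.hu + m.b * C.hv + m.e * C.hw : ℕ) : ℝ) / Q) :=
      mul_le_mul_of_nonneg_left h (by positivity)
    refine (add_le_add h1 ih).trans (le_of_eq ?_)
    push_cast
    have := D0_pos
    have := Q_pos
    field_simp

lemma r_spec (C : Ctr) (fu fv fw : ℝ) (hu : |fu| ≤ C.hu / Q) (hv : |fv| ≤ C.hv / Q)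
    (hw : |fw| ≤ C.hw / Q) (L : List Mono) :
    S1 (fun m => (psi fu fv fw m) ^ 2 / 2) L ≤ ((evalPoly C L).r : ℝ) / (2 * D0 * Q ^ 2) := by
  induction L with
  | nil => simp [S1, evalPoly]
  | cons m L ih =>
    simp only [S1, evalPoly]
    have h := psi_le C fu fv fw hu hv hw m
    have h0 : (psi fu fv fw m) ^ 2
        ≤ (((m.a * C.hu + m.b * C.hv + m.e * C.hw : ℕ) : ℝ) / Q) ^ 2 := by
      rw [← sq_abs]
      exact pow_le_pow_left₀ (abs_nonneg _) h 2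
    have h1 : (m.c.natAbs : ℝ) / D0 * ((psi fu fv fw m) ^ 2 / 2)
        ≤ (m.c.natAbs : ℝ) / D0 * ((((m.a * C.hu + m.b * C.hv + m.e * C.hw : ℕ) : ℝ) / Q) ^ 2 / 2) :=
      mul_le_mul_of_nonneg_left (by linarith) (by positivity)
    refine (add_le_add h1 ih).trans (le_of_eq ?_)
    push_cast
    have := D0_pos
    have := Q_pos
    field_simp

/-- second order bound for the norm -/
lemma norm_second {x y lin : ℂ} {s R Y : ℝ} (hs : 0 < s) (hx : ‖x‖ ≤ s) (hy : ‖y‖ ≤ Y)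
    (hr : ‖y - lin‖ ≤ R) :
    ‖x + y‖ ≤ s + ((starRingEnd ℂ) x * lin).re / s + R + Y ^ 2 / (2 * s) := by
  have h1 : ‖x + y‖ ^ 2 = ‖x‖ ^ 2 + 2 * ((starRingEnd ℂ) x * y).re + ‖y‖ ^ 2 := by
    rw [← Complex.normSq_eq_norm_sq, ← Complex.normSq_eq_norm_sq, ← Complex.normSq_eq_norm_sq]
    simp only [Complex.normSq_apply, Complex.mul_re, Complex.add_re, Complex.add_im,
      Complex.conj_re, Complex.conj_im]
    ring
  have h2 : ((starRingEnd ℂ) x * y).re ≤ ((starRingEnd ℂ) x * lin).re + s * R := by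
    have e : (starRingEnd ℂ) x * y = (starRingEnd ℂ) x * lin + (starRingEnd ℂ) x * (y - lin) := by
      ring
    rw [e, Complex.add_re]
    have h3 : ((starRingEnd ℂ) x * (y - lin)).re ≤ s * R := by
      refine (Complex.re_le_norm _).trans ?_
      rw [norm_mul, Complex.norm_conj]
      exact mul_le_mul hx hr (norm_nonneg _) hs.le
    linarith
  have h3 : ‖x‖ ^ 2 ≤ s ^ 2 := pow_le_pow_left₀ (norm_nonneg _) hx 2
  have h4 : ‖y‖ ^ 2 ≤ Y ^ 2 := pow_le_pow_left₀ (norm_nonneg _) hy 2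
  have h5 : 2 * s * ‖x + y‖ ≤ s ^ 2 + ‖x + y‖ ^ 2 := by nlinarith [sq_nonneg (s - ‖x + y‖)]
  have h6 : 2 * s * ‖x + y‖ ≤ 2 * s * (s + ((starRingEnd ℂ) x * lin).re / s + R
      + Y ^ 2 / (2 * s)) := by
    have e : 2 * s * (s + ((starRingEnd ℂ) x * lin).re / s + R + Y ^ 2 / (2 * s))
        = 2 * s ^ 2 + 2 * ((starRingEnd ℂ) x * lin).re + 2 * s * R + Y ^ 2 := by
      field_simp
    rw [e]
    nlinarith
  exact le_of_mul_le_mul_left h6 (by positivity)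

end Pool.Agent.W2helper1.WH
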