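import Pool.Agent.W2helper1.WH.S2
namespace Pool.Agent.W2helper1.WH
open Complex

lemma ediv_spec (a b : ℤ) (hb : 0 < b) : |(a : ℝ) / b - ((a / b : ℤ) : ℝ)| ≤ 1 := by
  have hb' : (0 : ℝ) < b := by exact_mod_cast hb
  have h1 : (a / b) * b ≤ a := Int.ediv_mul_le a hb.ne'
  have h2 : a < (a / b + 1) * b := Int.lt_ediv_add_one_mul_self a hb
  have h1' : (((a / b : ℤ) : ℝ)) * b ≤ a := by exact_mod_cast h1
  have h2' : (a : ℝ) < (((a / b : ℤ) : ℝ) + 1) * b := by exact_mod_cast h2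
  have h3 : ((a / b : ℤ) : ℝ) ≤ (a : ℝ) / b := by rw [le_div_iff₀ hb']; exact h1'
  have h4 : (a : ℝ) / b < ((a / b : ℤ) : ℝ) + 1 := by rw [div_lt_iff₀ hb']; exact h2'
  rw [abs_le]; constructor <;> linarith

lemma ndiv_spec (a b : ℕ) (hb : 0 < b) : (a : ℝ) / b ≤ ((a / b + 1 : ℕ) : ℝ) := by
  have hb' : (0 : ℝ) < b := by exact_mod_cast hb
  have h2 : a < (a / b + 1) * b := by
    have := Nat.lt_div_mul_add hb (a := a)
    nlinarith
  have h2' : (a : ℝ) < ((a / b + 1 : ℕ) : ℝ) * b := by exact_mod_cast h2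
  rw [div_le_iff₀ hb']; exact h2'.le

/-- integer form of `Im (conj x * y)` -/
lemma im_conj_spec (X Y : GI) :
    (((starRingEnd ℂ) (toC X) * toC Y).im) = ((X.re * Y.im - X.im * Y.re : ℤ) : ℝ) := by
  simp only [Complex.mul_im, Complex.conj_re, Complex.conj_im, toC_re, toC_im]
  push_cast; ring

lemma polyRes_spec {C : Ctr} {u v w : ℂ} (G : Good C u v w) (hu : ‖u‖ = 1) (hv : ‖v‖ = 1)
    (hw : ‖w‖ = 1) (hdu : 0 < C.du) (hdv : 0 < C.dv) (hdw : 0 < C.dw)
    (fu fv fw : ℝ) (bu : |fu| ≤ C.hu / Q) (bv : |fv| ≤ C.hv / Q)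
    (bw : |fw| ≤ C.hw / Q) (L : List Mono) (hL : Adm L)
    (hok : (polyRes (D0 * C.du ^ 6 * C.dv ^ 5 * C.dw ^ 4) (evalPoly C L)).ok = true) :
    ∃ Gu Gv Gw : ℝ,
      |Q * Gu - (polyRes (D0 * C.du ^ 6 * C.dv ^ 5 * C.dw ^ 4) (evalPoly C L)).gu| ≤ 1 ∧
      |Q * Gv - (polyRes (D0 * C.du ^ 6 * C.dv ^ 5 * C.dw ^ 4) (evalPoly C L)).gv| ≤ 1 ∧
      |Q * Gw - (polyRes (D0 * C.du ^ 6 * C.dv ^ 5 * C.dw ^ 4) (evalPoly C L)).gw| ≤ 1 ∧
      ‖ev (u * exp (I * fu)) (v * exp (I * fv)) (w * exp (I * fw)) L‖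
        ≤ ((polyRes (D0 * C.du ^ 6 * C.dv ^ 5 * C.dw ^ 4) (evalPoly C L)).t : ℝ) / Q
          - (fu * Gu + fv * Gv + fw * Gw) := by
  obtain ⟨ex, exu, exv, exw⟩ := evalPoly_spec G L hL
  set s := evalPoly C L with hs
  set DD : ℕ := D0 * C.du ^ 6 * C.dv ^ 5 * C.dw ^ 4 with hDD
  have hDDpos : 0 < DD := by
    have : 0 < D0 := by norm_num [D0]
    positivity
  have hDDR : (0 : ℝ) < DD := by exact_mod_cast hDDpos
  have hQ := Q_pos
  set x := ev u v w L with hx
  have hy := y_spec C fu fv fw bu bv bw L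
  have hr := r_spec C fu fv fw bu bv bw L
  rw [← hs] at hy hr
  have hD0 : 0 < D0 := by norm_num [D0]
  have hyb : ((s.y : ℝ)) / (D0 * Q) ≤ ((s.y / D0 + 1 : ℕ) : ℝ) / Q := by
    have := ndiv_spec s.y D0 hD0
    rw [← div_div]
    exact div_le_div_of_nonneg_right this hQ.le
  have he1 := (ev_sub L u v w hu hv hw fu fv fw).trans (hy.trans hyb)
  have he2 := (ev_sub2 L u v w hu hv hw fu fv fw).trans hr
  -- norm of x
  have hN : ∀ r : ℕ, 0 < r → (s.x.re.natAbs ^ 2 + s.x.im.natAbs ^ 2) * Q ^ 2 ≤ r ^ 2 * DD ^ 2 →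
      ‖x‖ ≤ (r : ℝ) / Q := by
    intro r hr0 h
    have h1 : ‖toC s.x‖ ^ 2 = ((s.x.re.natAbs ^ 2 + s.x.im.natAbs ^ 2 : ℕ) : ℝ) := by
      rw [← Complex.normSq_eq_norm_sq, Complex.normSq_apply, toC_re, toC_im]
      push_cast
      rw [Nat.cast_natAbs, Nat.cast_natAbs]
      push_cast
      rw [sq_abs, sq_abs]; ring
    rw [ex, norm_mul, Complex.norm_natCast] at h1
    have h2 : ((s.x.re.natAbs ^ 2 + s.x.im.natAbs ^ 2 : ℕ) : ℝ) * Q ^ 2 ≤ r ^ 2 * DD ^ 2 := by
      exact_mod_cast h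
    rw [← h1] at h2
    have h3 : ((DD : ℝ) * ‖x‖ * Q) ^ 2 ≤ ((r : ℝ) * DD) ^ 2 := by nlinarith
    have h4 : (DD : ℝ) * ‖x‖ * Q ≤ (r : ℝ) * DD := by
      exact le_of_sq_le_sq h3 (by positivity)
    rw [le_div_iff₀ hQ]
    have h5 : (DD : ℝ) * (‖x‖ * Q) ≤ DD * r := by nlinarith
    exact le_of_mul_le_mul_left h5 hDDR
  simp only [polyRes] at hok ⊢
  set r : ℕ := newton ((s.x.re.natAbs ^ 2 + s.x.im.natAbs ^ 2) * Q ^ 2 / DD ^ 2) 4
    (2 ^ (((s.x.re.natAbs ^ 2 + s.x.im.natAbs ^ 2) * Q ^ 2 / DD ^ 2).log2 / 2 + 1)) + 1 with hrdef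
  have hr0 : 0 < r := by omega
  have hrR : (0 : ℝ) < r := by exact_mod_cast hr0
  split_ifs at hok ⊢ with h1 h2
  · -- second order
    have hxs := hN r hr0 h1
    have hsp : (0 : ℝ) < (r : ℝ) / Q := by positivity
    refine ⟨((starRingEnd ℂ) x * evk (fun m => m.a) u v w L).im / ((r : ℝ) / Q),
      ((starRingEnd ℂ) x * evk (fun m => m.b) u v w L).im / ((r : ℝ) / Q),
      ((starRingEnd ℂ) x * evk (fun m => m.e) u v w L).im / ((r : ℝ) / Q), ?_, ?_, ?_, ?_⟩
    · have h := ediv_spec ((s.x.re * s.xu.im - s.x.im * s.xu.re) * (Q ^ 2 : ℕ))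
        ((r * DD ^ 2 : ℕ) : ℤ) (by positivity)
      have e := im_conj_spec s.x s.xu
      rw [ex, exu] at e
      refine le_trans (le_of_eq ?_) h
      congr 2
      push_cast at e ⊢
      rw [← e]
      simp only [map_mul, map_natCast, Complex.mul_im, Complex.mul_re, Complex.conj_re,
        Complex.conj_im, Complex.natCast_re, Complex.natCast_im]
      field_simp
      ring
    · have h := ediv_spec ((s.x.re * s.xv.im - s.x.im * s.xv.re) * (Q ^ 2 : ℕ))
        ((r * DD ^ 2 : ℕ) : ℤ) (by positivity)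
      have e := im_conj_spec s.x s.xv
      rw [ex, exv] at e
      refine le_trans (le_of_eq ?_) h
      congr 2
      push_cast at e ⊢
      rw [← e]
      simp only [map_mul, map_natCast, Complex.mul_im, Complex.mul_re, Complex.conj_re,
        Complex.conj_im, Complex.natCast_re, Complex.natCast_im]
      field_simp
      ring
    · have h := ediv_spec ((s.x.re * s.xw.im - s.x.im * s.xw.re) * (Q ^ 2 : ℕ))
        ((r * DD ^ 2 : ℕ) : ℤ) (by positivity)
      have e := im_conj_spec s.x s.xw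
      rw [ex, exw] at e
      refine le_trans (le_of_eq ?_) h
      congr 2
      push_cast at e ⊢
      rw [← e]
      simp only [map_mul, map_natCast, Complex.mul_im, Complex.mul_re, Complex.conj_re,
        Complex.conj_im, Complex.natCast_re, Complex.natCast_im]
      field_simp
      ring
    · have h := norm_second hsp hxs he1 he2
      have e0 : x + (ev (u * exp (I * fu)) (v * exp (I * fv)) (w * exp (I * fw)) L - x)
          = ev (u * exp (I * fu)) (v * exp (I * fv)) (w * exp (I * fw)) L := by ring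
      rw [e0] at h
      refine h.trans ?_
      have e1 : ((starRingEnd ℂ) x * (I * evk (psi fu fv fw) u v w L)).re / ((r : ℝ) / Q)
          = -(fu * (((starRingEnd ℂ) x * evk (fun m => m.a) u v w L).im / ((r : ℝ) / Q))
            + fv * (((starRingEnd ℂ) x * evk (fun m => m.b) u v w L).im / ((r : ℝ) / Q))
            + fw * (((starRingEnd ℂ) x * evk (fun m => m.e) u v w L).im / ((r : ℝ) / Q))) := by
        rw [evk_psi]
        simp only [Complex.mul_re, Complex.mul_im, Complex.add_re, Complex.add_im, I_re, I_im,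
          Complex.ofReal_re, Complex.ofReal_im]
        ring
      rw [e1]
      have e2 : (s.r : ℝ) / (2 * D0 * Q ^ 2) ≤ ((s.r / (2 * D0 * Q) + 1 : ℕ) : ℝ) / Q := by
        have hq : 0 < 2 * D0 * Q := by norm_num [D0, Q]
        have := ndiv_spec s.r (2 * D0 * Q) hq
        have h' := div_le_div_of_nonneg_right this hQ.le
        refine le_trans (le_of_eq ?_) h'
        push_cast
        field_simp
      have e3 : (((s.y / D0 + 1 : ℕ) : ℝ) / Q) ^ 2 / (2 * ((r : ℝ) / Q))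
          ≤ (((s.y / D0 + 1) ^ 2 / (2 * r) + 1 : ℕ) : ℝ) / Q := by
        have hq : 0 < 2 * r := by omega
        have := ndiv_spec ((s.y / D0 + 1) ^ 2) (2 * r) hq
        have h' := div_le_div_of_nonneg_right this hQ.le
        refine le_trans (le_of_eq ?_) h'
        push_cast
        field_simp
      have e4 : ((r + s.r / (2 * D0 * Q) + 1 + (s.y / D0 + 1) ^ 2 / (2 * r) + 1 : ℕ) : ℝ) / Q
          = (r : ℝ) / Q + ((s.r / (2 * D0 * Q) + 1 : ℕ) : ℝ) / Q
            + (((s.y / D0 + 1) ^ 2 / (2 * r) + 1 : ℕ) : ℝ) / Q := by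
        push_cast; ring
      rw [e4]
      linarith
  · have hxs := hN r hr0 h1
    refine ⟨0, 0, 0, by simp, by simp, by simp, ?_⟩
    have e0 : ev (u * exp (I * fu)) (v * exp (I * fv)) (w * exp (I * fw)) L
        = x + (ev (u * exp (I * fu)) (v * exp (I * fv)) (w * exp (I * fw)) L - x) := by ring
    rw [e0]
    refine (norm_add_le _ _).trans ?_
    have e4 : ((r + (s.y / D0 + 1) : ℕ) : ℝ) / Q
        = (r : ℝ) / Q + ((s.y / D0 + 1 : ℕ) : ℝ) / Q := by
      push_cast; ring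
    rw [e4]
    linarith

end Pool.Agent.W2helper1.WH
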