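import Pool.Agent.W2helper1.WH.S3
import Pool.Agent.W2helper1.WH.Tree
namespace Pool.Agent.W2helper1.WH
open Complex

/-- sum of the norms -/
noncomputable def sumN (u v w : ℂ) : List (List Mono) → ℝ
  | [] => 0
  | L :: LL => ‖ev u v w L‖ + sumN u v w LL

lemma accum_spec {C : Ctr} {u v w : ℂ} (G : Good C u v w) (hu : ‖u‖ = 1) (hv : ‖v‖ = 1)
    (hw : ‖w‖ = 1) (hdu : 0 < C.du) (hdv : 0 < C.dv) (hdw : 0 < C.dw)
    (fu fv fw : ℝ) (bu : |fu| ≤ C.hu / Q) (bv : |fv| ≤ C.hv / Q)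
    (bw : |fw| ≤ C.hw / Q) (LL : List (List Mono)) (hL : ∀ L ∈ LL, Adm L)
    (hok : (accum C (D0 * C.du ^ 6 * C.dv ^ 5 * C.dw ^ 4) LL).ok = true) :
    ∃ Gu Gv Gw : ℝ,
      |Q * Gu - (accum C (D0 * C.du ^ 6 * C.dv ^ 5 * C.dw ^ 4) LL).gu| ≤ LL.length ∧
      |Q * Gv - (accum C (D0 * C.du ^ 6 * C.dv ^ 5 * C.dw ^ 4) LL).gv| ≤ LL.length ∧
      |Q * Gw - (accum C (D0 * C.du ^ 6 * C.dv ^ 5 * C.dw ^ 4) LL).gw| ≤ LL.length ∧
      sumN (u * exp (I * fu)) (v * exp (I * fv)) (w * exp (I * fw)) LL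
        ≤ ((accum C (D0 * C.du ^ 6 * C.dv ^ 5 * C.dw ^ 4) LL).t : ℝ) / Q
          - (fu * Gu + fv * Gv + fw * Gw) := by
  induction LL with
  | nil => exact ⟨0, 0, 0, by simp [accum], by simp [accum], by simp [accum],
      by simp [accum, sumN]⟩
  | cons L LL ih =>
    simp only [accum, Bool.and_eq_true] at hok
    obtain ⟨a1, a2, a3, h1, h2, h3, h4⟩ := ih (fun L' h' => hL L' (by simp [h'])) hok.1
    obtain ⟨b1, b2, b3, k1, k2, k3, k4⟩ :=
      polyRes_spec G hu hv hw hdu hdv hdw fu fv fw bu bv bw L (hL L (by simp)) hok.2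
    refine ⟨a1 + b1, a2 + b2, a3 + b3, ?_, ?_, ?_, ?_⟩
    · simp only [accum, List.length_cons]
      push_cast
      rw [abs_le] at h1 k1 ⊢
      constructor <;> linarith [h1.1, h1.2, k1.1, k1.2]
    · simp only [accum, List.length_cons]
      push_cast
      rw [abs_le] at h2 k2 ⊢
      constructor <;> linarith [h2.1, h2.2, k2.1, k2.2]
    · simp only [accum, List.length_cons]
      push_cast
      rw [abs_le] at h3 k3 ⊢
      constructor <;> linarith [h3.1, h3.2, k3.1, k3.2]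
    · simp only [accum, sumN]
      push_cast
      rw [add_div]
      linarith

/-! ### arcs -/

/-- point of the circle -/
noncomputable def circ (t : ℝ) : ℂ := exp (I * ((2 * Real.arctan t : ℝ) : ℂ))

noncomputable def rot (q : ℕ) : ℂ :=
  match q with
  | 0 => 1
  | 1 => I
  | 2 => -1
  | _ => -I

lemma norm_rot (q : ℕ) : ‖rot q‖ = 1 := by
  unfold rot
  split <;> simp

lemma circ_eq (t : ℝ) : circ t = ((((1 - t ^ 2) / (1 + t ^ 2) : ℝ)) : ℂ)
    + ((2 * t / (1 + t ^ 2) : ℝ) : ℂ) * I := by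
  have hc : Real.cos (2 * Real.arctan t) = (1 - t ^ 2) / (1 + t ^ 2) := by
    rw [Real.cos_two_mul, Real.cos_sq_arctan]
    have : (1 + t ^ 2) ≠ 0 := by positivity
    field_simp
    ring
  have hsn : Real.sin (2 * Real.arctan t) = 2 * t / (1 + t ^ 2) := by
    rw [Real.sin_two_mul, Real.sin_arctan, Real.cos_arctan]
    have h1 : 0 < √(1 + t ^ 2) := by positivity
    have h2 : √(1 + t ^ 2) * √(1 + t ^ 2) = 1 + t ^ 2 := Real.mul_self_sqrt (by positivity)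
    rw [mul_assoc, div_mul_div_comm, h2]
    ring
  rw [circ, mul_comm, Complex.exp_mul_I, ← Complex.ofReal_cos, ← Complex.ofReal_sin, hc, hsn]

lemma norm_circ (t : ℝ) : ‖circ t‖ = 1 := by
  rw [circ, mul_comm]
  exact Complex.norm_exp_ofReal_mul_I _

/-- the arc described by `x` -/
def InArc (x : Arc) (z : ℂ) : Prop :=
  ∃ t : ℝ, |t - x.m / 2 ^ x.l| ≤ 1 / 2 ^ x.l ∧ z = rot x.q * circ t

noncomputable def cen (x : Arc) : ℂ := rot x.q * circ (x.m / 2 ^ x.l)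

lemma norm_cen (x : Arc) : ‖cen x‖ = 1 := by
  rw [cen, norm_mul, norm_rot, norm_circ, one_mul]

lemma den_pos (x : Arc) : 0 < x.den := by unfold Arc.den; positivity

lemma cen_den (x : Arc) : cen x * (x.den : ℂ) = toC x.num := by
  have hT : ((2 : ℝ) ^ x.l) ≠ 0 := by positivity
  have h1 : circ (x.m / 2 ^ x.l) * (x.den : ℂ)
      = ((((2 : ℝ) ^ x.l) ^ 2 - (x.m : ℝ) ^ 2 : ℝ) : ℂ) + ((2 * x.m * 2 ^ x.l : ℝ) : ℂ) * I := by
    rw [circ_eq]
    have hd : ((x.den : ℕ) : ℂ) = (((((2 : ℝ) ^ x.l) ^ 2 + (x.m : ℝ) ^ 2 : ℝ)) : ℂ) := by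
      simp only [Arc.den]; push_cast; ring
    rw [hd, add_mul]
    congr 1
    · rw [← Complex.ofReal_mul]
      congr 1
      have h3 : (1 + ((x.m : ℝ) / 2 ^ x.l) ^ 2) ≠ 0 := by positivity
      field_simp
    · rw [mul_assoc, mul_comm I, ← mul_assoc, ← Complex.ofReal_mul]
      congr 2
      have h3 : (1 + ((x.m : ℝ) / 2 ^ x.l) ^ 2) ≠ 0 := by positivity
      field_simp
  rw [cen, mul_assoc, h1]
  obtain ⟨q, m, l⟩ := x
  rcases q with _ | _ | _ | q
  · simp only [rot, Arc.num, toC]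
    push_cast
    ring
  · simp only [rot, Arc.num, toC]
    push_cast
    linear_combination (2 * (m : ℂ) * 2 ^ l) * I_sq
  · simp only [rot, Arc.num, toC]
    push_cast
    ring
  · simp only [rot, Arc.num, toC]
    push_cast
    linear_combination (-(2 * (m : ℂ) * 2 ^ l)) * I_sq

lemma arctan_lip (lo s t : ℝ) (hlo : 0 ≤ lo) (hs : lo ≤ s) (ht : lo ≤ t) :
    |Real.arctan t - Real.arctan s| ≤ 1 / (1 + lo ^ 2) * |t - s| := by
  have h := (convex_Ici lo).norm_image_sub_le_of_norm_hasDerivWithin_le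
    (f := Real.arctan) (f' := fun x => 1 / (1 + x ^ 2)) (C := 1 / (1 + lo ^ 2))
    (x := s) (y := t)
    (fun x _ => (Real.hasDerivAt_arctan x).hasDerivWithinAt)
    (fun x hx => by
      have hx' : lo ≤ x := hx
      rw [Real.norm_eq_abs, abs_of_nonneg (by positivity)]
      apply one_div_le_one_div_of_le (by positivity)
      nlinarith)
    hs ht
  simpa [Real.norm_eq_abs] using h

lemma arc_rot (x : Arc) (hm : 1 ≤ x.m) (z : ℂ) (hz : InArc x z) :
    ∃ f : ℝ, |f| ≤ x.hw / Q ∧ z = cen x * exp (I * f) := by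
  obtain ⟨t, ht, rfl⟩ := hz
  refine ⟨2 * Real.arctan t - 2 * Real.arctan (x.m / 2 ^ x.l), ?_, ?_⟩
  · have hT : (0 : ℝ) < 2 ^ x.l := by positivity
    have hmR : (1 : ℝ) ≤ x.m := by exact_mod_cast hm
    rw [abs_le] at ht
    have h1 := arctan_lip ((x.m - 1) / 2 ^ x.l) (x.m / 2 ^ x.l) t
      (div_nonneg (by linarith) hT.le)
      (div_le_div_of_nonneg_right (by linarith) hT.le)
      (by rw [sub_div]; linarith [ht.1])
    have h2 : |t - x.m / 2 ^ x.l| ≤ 1 / 2 ^ x.l := abs_le.mpr ht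
    have h3 : |2 * Real.arctan t - 2 * Real.arctan (x.m / 2 ^ x.l)|
        = 2 * |Real.arctan t - Real.arctan (x.m / 2 ^ x.l)| := by
      rw [← mul_sub, abs_mul]; norm_num
    rw [h3]
    have hp : (0 : ℝ) < 1 + ((x.m - 1) / 2 ^ x.l) ^ 2 := by positivity
    have h4 : 2 * |Real.arctan t - Real.arctan (x.m / 2 ^ x.l)|
        ≤ 2 * (1 / (1 + (((x.m : ℝ) - 1) / 2 ^ x.l) ^ 2) * (1 / 2 ^ x.l)) := by
      have := mul_le_mul_of_nonneg_left h2 (a := 1 / (1 + (((x.m : ℝ) - 1) / 2 ^ x.l) ^ 2))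
        (by positivity)
      linarith
    refine h4.trans ?_
    have hd : 0 < (2 ^ x.l) ^ 2 + (x.m - 1) ^ 2 := by positivity
    have h5 := ndiv_spec (2 * 2 ^ x.l * Q) ((2 ^ x.l) ^ 2 + (x.m - 1) ^ 2) hd
    have h6 := div_le_div_of_nonneg_right h5 Q_pos.le
    refine le_trans (le_of_eq ?_) h6
    have hQ := Q_pos
    rw [Nat.cast_add, Nat.cast_pow, Nat.cast_pow, Nat.cast_pow, Nat.cast_sub hm]
    push_cast
    field_simp
  · rw [cen, circ, circ, mul_assoc, ← Complex.exp_add]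
    congr 2
    push_cast
    ring

lemma left_right (x : Arc) (hm : 1 ≤ x.m) (z : ℂ) (hz : InArc x z) :
    InArc x.left z ∨ InArc x.right z := by
  obtain ⟨t, ht, rfl⟩ := hz
  have hT : (0 : ℝ) < 2 ^ x.l := by positivity
  rw [abs_le] at ht
  have e1 : ((2 * x.m - 1 : ℕ) : ℝ) = 2 * x.m - 1 := by
    rw [Nat.cast_sub (by omega)]; push_cast; ring
  rcases le_total t (x.m / 2 ^ x.l) with h | h
  · left
    refine ⟨t, ?_, rfl⟩
    simp only [Arc.left]
    rw [e1, abs_le]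
    have e2 : (2 * (x.m : ℝ) - 1) / 2 ^ (x.l + 1) = x.m / 2 ^ x.l - 1 / 2 ^ x.l / 2 := by
      rw [pow_succ]; field_simp
    have e3 : (1 : ℝ) / 2 ^ (x.l + 1) = 1 / 2 ^ x.l / 2 := by
      rw [pow_succ]; field_simp
    rw [e2, e3]
    constructor <;> linarith [ht.1]
  · right
    refine ⟨t, ?_, rfl⟩
    simp only [Arc.right]
    rw [abs_le]
    have e2 : ((2 * x.m + 1 : ℕ) : ℝ) / 2 ^ (x.l + 1) = x.m / 2 ^ x.l + 1 / 2 ^ x.l / 2 := by
      push_cast; rw [pow_succ]; field_simp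
    have e3 : (1 : ℝ) / 2 ^ (x.l + 1) = 1 / 2 ^ x.l / 2 := by
      rw [pow_succ]; field_simp
    rw [e2, e3]
    constructor <;> linarith [ht.2]

end Pool.Agent.W2helper1.WH
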