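import Mathlib

/-!
# The Whittaker constant is at least 0.736 (project WH, helper1)

Definitions and piece statements.
-/

namespace Pool.Agent.W2helper1.WH

open Filter Topology

/-! ### The Whittaker constant -/

/-- The maximum modulus `M_r = sup_{|z| ≤ r} |f z|`. -/
noncomputable def maxMod (f : ℂ → ℂ) (r : ℝ) : ℝ :=
  sSup ((fun z => ‖f z‖) '' Metric.closedBall (0 : ℂ) r)

/-- `limsup_{r → ∞} (ln M_r) / r`. -/
noncomputable def growth (f : ℂ → ℂ) : EReal :=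
  limsup (fun r : ℝ => ((Real.log (maxMod f r) / r : ℝ) : EReal)) atTop

/-- `f` is entire, and `f` and each of its derivatives has a zero in the closed unit disk. -/
def Admissible (f : ℂ → ℂ) : Prop :=
  Differentiable ℂ f ∧ ∀ n : ℕ, ∃ z : ℂ, ‖z‖ ≤ 1 ∧ iteratedDeriv n f z = 0

/-- The Whittaker constant: the largest `c` such that every admissible entire function with
`limsup (ln M_r) / r < c` vanishes identically. -/
noncomputable def W : EReal :=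
  sSup {c : EReal | ∀ f : ℂ → ℂ, Admissible f → growth f < c → f = 0}

/-! ### The numbers of the certificate -/

/-- `τ = 0.736`. -/
def tau : ℚ := 92 / 125

/-- `c k = τ ^ k / k!`. -/
def c (k : ℕ) : ℚ := tau ^ k / (k.factorial : ℚ)

def p0 : ℚ := 211 / 2000
def p1 : ℚ := 2477 / 10000
def mu : ℚ := 409 / 10000

/-- coefficient of `B_2` -/
noncomputable def P2 (u : ℂ) : ℂ :=
  ((c 2 - p0 : ℚ) : ℂ) + ((p1 - c 1 * c 1 : ℚ) : ℂ) * u

/-- coefficient of `B_3` -/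
noncomputable def P3 (u v : ℂ) : ℂ :=
  ((c 3 : ℚ) : ℂ) - ((c 1 * c 2 : ℚ) : ℂ) * u ^ 2 + ((mu - c 1 * p0 : ℚ) : ℂ) * v
    + ((c 1 * p1 - mu : ℚ) : ℂ) * (u * v)

/-- coefficient of `B_(k+4)` -/
noncomputable def PP (k : ℕ) (u v w : ℂ) : ℂ :=
  ((c (k + 4) : ℚ) : ℂ) - ((c 1 * c (k + 3) : ℚ) : ℂ) * u ^ (k + 3)
    + ((c (k + 2) : ℚ) : ℂ) * (-((p0 : ℚ) : ℂ) + ((p1 : ℚ) : ℂ) * u) * v ^ (k + 2)
    + ((mu * c (k + 1) : ℚ) : ℂ) * (1 - u) * v * w ^ (k + 1)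

/-- The inequality on the torus (maximum over the torus is 0.99892..). -/
def TorusIneq : Prop :=
  ∀ u v w : ℂ, ‖u‖ = 1 → ‖v‖ = 1 → ‖w‖ = 1 →
    ‖P2 u‖ + ‖P3 u v‖ + ‖PP 0 u v w‖ + ‖PP 1 u v w‖ + ‖PP 2 u v w‖ + ‖PP 3 u v w‖
      ≤ 9997 / 10000

/-- Core: a bounded sequence whose first term is the largest and all of whose shifted
generating functions have zeros in the closed unit disk vanishes. -/
def Core : Prop :=
  ∀ (A z : ℕ → ℂ), (∀ k, ‖A k‖ ≤ ‖A 0‖) → (∀ j, ‖z j‖ ≤ 1) →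
    (∀ j, HasSum (fun k : ℕ => ((c k : ℚ) : ℂ) * z j ^ k * A (j + k)) 0) → A 0 = 0

/-- Piece WH-CORE. -/
def S_CORE : Prop := TorusIneq → Core

/-- Piece WH-RED. -/
def S_RED : Prop := Core → ((0.736 : ℝ) : EReal) ≤ W

end Pool.Agent.W2helper1.WH
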