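import Pool.Agent.W2helper1.WH.S4
import Pool.Agent.W2helper1.WH.Stm
namespace Pool.Agent.W2helper1.WH
open Complex

lemma pows_spec (g : GI) (n : ℕ) : ∀ (cur : GI) (a : ℕ), a ≤ n →
    toC ((pows g n cur).getD a zeroGI) = toC g ^ a * toC cur := by
  induction n with
  | zero =>
    intro cur a ha
    have : a = 0 := by omega
    subst this
    simp [pows]
  | succ n ih =>
    intro cur a ha
    rcases a with _ | a
    · simp [pows]
    · simp only [pows, List.getD_cons_succ]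
      rw [ih (GI.mul g cur) a (by omega), toC_mul]
      ring

lemma toC_one : toC ⟨1, 0⟩ = 1 := by simp [toC]

lemma good_ctr (x y z : Arc) : Good (ctr x y z) (cen x) (cen y) (cen z) := by
  refine ⟨?_, ?_, ?_⟩
  · intro a ha
    simp only [ctr]
    rw [pows_spec _ _ _ _ ha, toC_one, mul_one, ← cen_den]
  · intro a ha
    simp only [ctr]
    rw [pows_spec _ _ _ _ ha, toC_one, mul_one, ← cen_den]
  · intro a ha
    simp only [ctr]
    rw [pows_spec _ _ _ _ ha, toC_one, mul_one, ← cen_den]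

lemma polys_adm : ∀ L ∈ polys, Adm L := by
  simp [polys, Adm]

lemma cell_spec (x y z : Arc) (hx : 1 ≤ x.m) (hy : 1 ≤ y.m) (hz : 1 ≤ z.m)
    (h : cellTest x y z = true) (u v w : ℂ) (hu : InArc x u) (hv : InArc y v) (hw : InArc z w) :
    sumN u v w polys ≤ 9997 / 10000 := by
  obtain ⟨fu, bu, rfl⟩ := arc_rot x hx u hu
  obtain ⟨fv, bv, rfl⟩ := arc_rot y hy v hv
  obtain ⟨fw, bw, rfl⟩ := arc_rot z hz w hw
  simp only [cellTest, Bool.and_eq_true, decide_eq_true_eq] at h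
  obtain ⟨hok, hle⟩ := h
  obtain ⟨Gu, Gv, Gw, h1, h2, h3, h4⟩ := accum_spec (good_ctr x y z) (norm_cen x) (norm_cen y)
    (norm_cen z) (den_pos x) (den_pos y) (den_pos z) fu fv fw bu bv bw polys polys_adm hok
  set a := accum (ctr x y z) (D0 * x.den ^ 6 * y.den ^ 5 * z.den ^ 4) polys with ha
  have ha' : accum (ctr x y z) (D0 * (ctr x y z).du ^ 6 * (ctr x y z).dv ^ 5 * (ctr x y z).dw ^ 4)
      polys = a := rfl
  rw [ha'] at h1 h2 h3 h4
  have hl : (polys.length : ℝ) = 6 := by simp [polys]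
  rw [hl] at h1 h2 h3
  have hQ := Q_pos
  have key : ∀ (f G : ℝ) (g : ℤ) (hh : ℕ), |f| ≤ hh / Q → |Q * G - g| ≤ 6 →
      -(f * G) ≤ (((g.natAbs + 6) * hh : ℕ) : ℝ) / Q / Q := by
    intro f G g hh hf hG
    have h5 : |(Q : ℝ) * G| ≤ g.natAbs + 6 := by
      have : (Q : ℝ) * G = (Q * G - g) + g := by ring
      rw [this]
      refine (abs_add_le _ _).trans ?_
      have : |(g : ℝ)| = g.natAbs := by rw [Nat.cast_natAbs]; push_cast; rfl
      rw [this]
      linarith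
    have h6 : -(f * G) ≤ |f| * |G| := by rw [← abs_mul]; exact neg_le_abs _
    rw [abs_mul, abs_of_pos hQ] at h5
    have h7 : |G| ≤ (g.natAbs + 6) / Q := by rw [le_div_iff₀ hQ]; linarith
    refine h6.trans ?_
    calc |f| * |G| ≤ (hh / Q) * ((g.natAbs + 6) / Q) :=
          mul_le_mul hf h7 (abs_nonneg _) (by positivity)
      _ = _ := by push_cast; field_simp
  have k1 := key fu Gu a.gu x.hw bu h1
  have k2 := key fv Gv a.gv y.hw bv h2
  have k3 := key fw Gw a.gw z.hw bw h3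
  set S : ℕ := (a.gu.natAbs + 6) * x.hw + (a.gv.natAbs + 6) * y.hw + (a.gw.natAbs + 6) * z.hw
    with hS
  have hS' : (a.gu.natAbs + 6) * (ctr x y z).hu + (a.gv.natAbs + 6) * (ctr x y z).hv
    + (a.gw.natAbs + 6) * (ctr x y z).hw = S := rfl
  rw [hS'] at hle
  have h8 : ((S : ℝ)) / Q ≤ ((S / Q + 1 : ℕ) : ℝ) := ndiv_spec S Q (by norm_num [Q])
  have h9 : ((a.t + S / Q + 1 : ℕ) : ℝ) ≤ ((9997 * Q / 10000 : ℕ) : ℝ) := by exact_mod_cast hle
  have h10 : ((9997 * Q / 10000 : ℕ) : ℝ) ≤ 9997 / 10000 * Q := by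
    have h := Nat.div_mul_le_self (9997 * Q) 10000
    have h' : ((9997 * Q / 10000 : ℕ) : ℝ) * 10000 ≤ 9997 * Q := by exact_mod_cast h
    linarith
  have h11 : ((S : ℝ)) / Q / Q = (((a.gu.natAbs + 6) * x.hw : ℕ) : ℝ) / Q / Q
      + (((a.gv.natAbs + 6) * y.hw : ℕ) : ℝ) / Q / Q
      + (((a.gw.natAbs + 6) * z.hw : ℕ) : ℝ) / Q / Q := by
    rw [hS]; push_cast; ring
  refine h4.trans ?_
  have h12 : (a.t : ℝ) / Q + (S : ℝ) / Q / Q ≤ 9997 / 10000 := by
    rw [← add_div, div_le_iff₀ hQ]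
    push_cast at h8 h9
    linarith
  linarith

lemma check_spec (T : Tree) : ∀ (x y z : Arc), 1 ≤ x.m → 1 ≤ y.m → 1 ≤ z.m →
    check T x y z = true → ∀ (u v w : ℂ), InArc x u → InArc y v → InArc z w →
    sumN u v w polys ≤ 9997 / 10000 := by
  have hl : ∀ x : Arc, 1 ≤ x.m → 1 ≤ x.left.m := fun x h => by simp only [Arc.left]; omega
  have hr : ∀ x : Arc, 1 ≤ x.m → 1 ≤ x.right.m := fun x h => by simp only [Arc.right]; omega
  induction T with
  | L =>
    intro x y z hx hy hz h u v w hu hv hw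
    exact cell_spec x y z hx hy hz h u v w hu hv hw
  | U a b iha ihb =>
    intro x y z hx hy hz h u v w hu hv hw
    simp only [check, Bool.and_eq_true] at h
    rcases left_right x hx u hu with h' | h'
    · exact iha _ _ _ (hl x hx) hy hz h.1 u v w h' hv hw
    · exact ihb _ _ _ (hr x hx) hy hz h.2 u v w h' hv hw
  | V a b iha ihb =>
    intro x y z hx hy hz h u v w hu hv hw
    simp only [check, Bool.and_eq_true] at h
    rcases left_right y hy v hv with h' | h'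
    · exact iha _ _ _ hx (hl y hy) hz h.1 u v w hu h' hw
    · exact ihb _ _ _ hx (hr y hy) hz h.2 u v w hu h' hw
  | W a b iha ihb =>
    intro x y z hx hy hz h u v w hu hv hw
    simp only [check, Bool.and_eq_true] at h
    rcases left_right z hz w hw with h' | h'
    · exact iha _ _ _ hx hy (hl z hz) h.1 u v w hu hv h'
    · exact ihb _ _ _ hx hy (hr z hz) h.2 u v w hu hv h'

lemma covU {x y z : Arc} (h1 : Cov x.left y z) (h2 : Cov x.right y z) : Cov x y z := by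
  obtain ⟨a, ha⟩ := h1
  obtain ⟨b, hb⟩ := h2
  exact ⟨.U a b, by simp [check, ha, hb]⟩

lemma covV {x y z : Arc} (h1 : Cov x y.left z) (h2 : Cov x y.right z) : Cov x y z := by
  obtain ⟨a, ha⟩ := h1
  obtain ⟨b, hb⟩ := h2
  exact ⟨.V a b, by simp [check, ha, hb]⟩

lemma covW {x y z : Arc} (h1 : Cov x y z.left) (h2 : Cov x y z.right) : Cov x y z := by
  obtain ⟨a, ha⟩ := h1
  obtain ⟨b, hb⟩ := h2
  exact ⟨.W a b, by simp [check, ha, hb]⟩

/-! ### coverage -/

lemma quad (a b : ℝ) (ha : 0 ≤ a) (hb : 0 ≤ b) (hab : a ^ 2 + b ^ 2 = 1) :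
    ∃ t : ℝ, |t - 1 / 2| ≤ 1 / 2 ∧ circ t = (a : ℂ) + (b : ℂ) * I := by
  have hp : 0 < 1 + a := by linarith
  have hb1 : b ≤ 1 := by nlinarith
  refine ⟨b / (1 + a), ?_, ?_⟩
  · have h1 : 0 ≤ b / (1 + a) := by positivity
    have h2 : b / (1 + a) ≤ 1 := by rw [div_le_one hp]; linarith
    rw [abs_le]; constructor <;> linarith
  · rw [circ_eq]
    have h1 : 1 + (b / (1 + a)) ^ 2 = 2 / (1 + a) := by
      have : b ^ 2 = 1 - a ^ 2 := by linarith
      field_simp
      rw [this]; ring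
    have h2 : 1 - (b / (1 + a)) ^ 2 = 2 * a / (1 + a) := by
      have : b ^ 2 = 1 - a ^ 2 := by linarith
      field_simp
      rw [this]; ring
    rw [h1, h2]
    congr 2
    · congr 1
      field_simp
    · congr 1
      field_simp

lemma cover_upper (z : ℂ) (hz : ‖z‖ = 1) (hi : 0 ≤ z.im) :
    ∃ q : ℕ, q < 2 ∧ InArc ⟨q, 1, 1⟩ z := by
  have hab : z.re ^ 2 + z.im ^ 2 = 1 := by
    have := Complex.normSq_eq_norm_sq z
    rw [hz, Complex.normSq_apply] at this
    nlinarith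
  have hz' : z = (z.re : ℂ) + (z.im : ℂ) * I := (Complex.re_add_im z).symm
  have e : ∀ t : ℝ, |t - 1 / 2| ≤ 1 / 2 → |t - ((1 : ℕ) : ℝ) / 2 ^ 1| ≤ 1 / 2 ^ 1 := by
    intro t ht; simpa using ht
  rcases le_total 0 z.re with hr | hr
  · obtain ⟨t, ht, h⟩ := quad z.re z.im hr hi hab
    exact ⟨0, by omega, ⟨t, e t ht, by rw [h]; simp only [rot]; rw [one_mul]; exact hz'⟩⟩
  · obtain ⟨t, ht, h⟩ := quad z.im (-z.re) hi (by linarith) (by nlinarith)
    refine ⟨1, by omega, ⟨t, e t ht, ?_⟩⟩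
    rw [h]
    simp only [rot]
    conv_lhs => rw [hz']
    push_cast
    linear_combination (z.re : ℂ) * I_sq

lemma cover (z : ℂ) (hz : ‖z‖ = 1) : ∃ q : ℕ, q < 4 ∧ InArc ⟨q, 1, 1⟩ z := by
  have hab : z.re ^ 2 + z.im ^ 2 = 1 := by
    have := Complex.normSq_eq_norm_sq z
    rw [hz, Complex.normSq_apply] at this
    nlinarith
  have hz' : z = (z.re : ℂ) + (z.im : ℂ) * I := (Complex.re_add_im z).symm
  have e : ∀ t : ℝ, |t - 1 / 2| ≤ 1 / 2 → |t - ((1 : ℕ) : ℝ) / 2 ^ 1| ≤ 1 / 2 ^ 1 := by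
    intro t ht; simpa using ht
  rcases le_total 0 z.im with hi | hi
  · obtain ⟨q, hq, h⟩ := cover_upper z hz hi
    exact ⟨q, by omega, h⟩
  · rcases le_total 0 z.re with hr | hr
    · obtain ⟨t, ht, h⟩ := quad (-z.im) z.re (by linarith) hr (by nlinarith)
      refine ⟨3, by omega, ⟨t, e t ht, ?_⟩⟩
      rw [h]
      simp only [rot]
      conv_lhs => rw [hz']
      push_cast
      linear_combination (z.re : ℂ) * I_sq
    · obtain ⟨t, ht, h⟩ := quad (-z.re) (-z.im) (by linarith) (by linarith) (by nlinarith)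
      refine ⟨2, by omega, ⟨t, e t ht, ?_⟩⟩
      rw [h]
      simp only [rot]
      conv_lhs => rw [hz']
      push_cast
      ring

end Pool.Agent.W2helper1.WH
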